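import Mathlib

/-!
# The union of two down-sets of given sizes

`key`: for nonempty down-sets `F, G` of subsets of a set with `a + b + 1` elements, with
`2 ^ a ≤ #F ≤ 2 ^ (a + 1)` and `2 ^ b ≤ #G ≤ 2 ^ (b + 1)`, the number of unions of a member of `F`
and a member of `G` is at most `2 ^ (a + b + 1) - (2 ^ (a + 1) - #F) * (2 ^ (b + 1) - #G)`.
-/

namespace Pool.Agent.D0H2.CS

open Finset
open scoped FinsetFamily

variable {α : Type*} [DecidableEq α]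

theorem lower_sups {F G : Finset (Finset α)} (hF : IsLowerSet (F : Set (Finset α)))
    (hG : IsLowerSet (G : Set (Finset α))) : IsLowerSet ((F ⊻ G : Finset (Finset α)) : Set (Finset α)) := by
  intro S T hTS hS
  rw [mem_coe, mem_sups] at hS ⊢
  obtain ⟨A, hA, B, hB, rfl⟩ := hS
  refine ⟨T ∩ A, hF (show T ∩ A ≤ A from inter_subset_right) hA, T ∩ B,
    hG (show T ∩ B ≤ B from inter_subset_right) hB, ?_⟩
  rw [sup_eq_union, ← inter_union_distrib_left]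
  exact inter_eq_left.2 hTS

theorem sups_sub {F G : Finset (Finset α)} {s : Finset α} (hF : ∀ A ∈ F, A ⊆ s)
    (hG : ∀ A ∈ G, A ⊆ s) : ∀ A ∈ F ⊻ G, A ⊆ s := by
  intro S hS
  rw [mem_sups] at hS
  obtain ⟨A, hA, B, hB, rfl⟩ := hS
  exact union_subset (hF A hA) (hG B hB)

omit [DecidableEq α] in
theorem card_le_two_pow {F : Finset (Finset α)} {s : Finset α} (hF : ∀ A ∈ F, A ⊆ s) :
    #F ≤ 2 ^ #s := by
  rw [← card_powerset]
  exact card_le_card fun A hA => mem_powerset.2 (hF A hA)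

/-- The union is bounded by the two fibres. -/
theorem split_card (x : α) {F G : Finset (Finset α)} (hF : IsLowerSet (F : Set (Finset α)))
    (hG : IsLowerSet (G : Set (Finset α))) :
    #(F ⊻ G) ≤ #(F.nonMemberSubfamily x ⊻ G.nonMemberSubfamily x) +
      #((F.memberSubfamily x ⊻ G.nonMemberSubfamily x) ∪
        (F.nonMemberSubfamily x ⊻ G.memberSubfamily x)) := by
  rw [← card_memberSubfamily_add_card_nonMemberSubfamily x (F ⊻ G), add_comm]
  refine add_le_add (card_le_card ?_) (card_le_card ?_)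
  · intro S hS
    rw [mem_nonMemberSubfamily, mem_sups] at hS
    obtain ⟨⟨A, hA, B, hB, rfl⟩, hx⟩ := hS
    rw [sup_eq_union, mem_union, not_or] at hx
    rw [mem_sups]
    exact ⟨A, mem_nonMemberSubfamily.2 ⟨hA, hx.1⟩, B, mem_nonMemberSubfamily.2 ⟨hB, hx.2⟩, rfl⟩
  · intro S hS
    rw [mem_memberSubfamily, mem_sups] at hS
    obtain ⟨⟨A, hA, B, hB, hAB⟩, hx⟩ := hS
    rw [sup_eq_union] at hAB
    have hxAB : x ∈ A ∪ B := by rw [hAB]; exact mem_insert_self _ _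
    have hS' : S = (A.erase x) ∪ (B.erase x) := by
      rw [← erase_union_distrib, hAB, erase_insert hx]
    have heA : A.erase x ∈ F := hF (show A.erase x ≤ A from erase_subset _ _) hA
    have heB : B.erase x ∈ G := hG (show B.erase x ≤ B from erase_subset _ _) hB
    rw [mem_union, mem_sups, mem_sups]
    rw [mem_union] at hxAB
    rcases hxAB with h | h
    · left
      refine ⟨A.erase x, mem_memberSubfamily.2 ⟨by rwa [insert_erase h], notMem_erase _ _⟩,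
        B.erase x, mem_nonMemberSubfamily.2 ⟨heB, notMem_erase _ _⟩, hS'.symm⟩
    · right
      refine ⟨A.erase x, mem_nonMemberSubfamily.2 ⟨heA, notMem_erase _ _⟩, B.erase x,
        mem_memberSubfamily.2 ⟨by rwa [insert_erase h], notMem_erase _ _⟩, hS'.symm⟩

/-- The upper fibre: a first bound. -/
theorem up1 {F0 F1 G0 G1 : Finset (Finset α)} (hF : F1 ⊆ F0) (hG : G1 ⊆ G0) :
    #((F1 ⊻ G0) ∪ (F0 ⊻ G1)) + #F1 * #G1 ≤ #(F0 ⊻ G1) + #F1 * #G0 := by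
  have h1 : (F1 ⊻ G0) ∪ (F0 ⊻ G1) ⊆ (F0 ⊻ G1) ∪ (F1 ⊻ (G0 \ G1)) := by
    intro S hS
    rw [mem_union] at hS ⊢
    rcases hS with hS | hS
    · rw [mem_sups] at hS
      obtain ⟨A, hA, B, hB, rfl⟩ := hS
      by_cases h : B ∈ G1
      · left
        exact mem_sups.2 ⟨A, hF hA, B, h, rfl⟩
      · right
        exact mem_sups.2 ⟨A, hA, B, mem_sdiff.2 ⟨hB, h⟩, rfl⟩
    · exact Or.inl hS
  have h2 := (card_le_card h1).trans (card_union_le _ _)
  have h3 : #(F1 ⊻ (G0 \ G1)) ≤ #F1 * #(G0 \ G1) := card_sups_le _ _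
  have h4 : #(G0 \ G1) + #G1 = #G0 := card_sdiff_add_card_eq_card hG
  rw [← h4, mul_add]
  omega

/-- Kleitman's inequality for the complements of two down-sets. -/
theorem kleit {A B : Finset (Finset α)} {s : Finset α} (hA : IsLowerSet (A : Set (Finset α)))
    (hB : IsLowerSet (B : Set (Finset α))) (hAs : ∀ t ∈ A, t ⊆ s) (hBs : ∀ t ∈ B, t ⊆ s) :
    ((2 : ℤ) ^ #s - #A) * (2 ^ #s - #B) ≤ 2 ^ #s * (2 ^ #s - #(A ∪ B)) := by
  have h1 := hA.le_card_inter_finset' hB hAs hBs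
  have h2 : #(A ∪ B) + #(A ∩ B) = #A + #B := card_union_add_card_inter _ _
  have h1' : (#A : ℤ) * #B ≤ 2 ^ #s * #(A ∩ B) := by exact_mod_cast h1
  have h2' : (#(A ∪ B) : ℤ) = #A + #B - #(A ∩ B) := by
    have : (#(A ∪ B) : ℤ) + #(A ∩ B) = #A + #B := by exact_mod_cast h2
    linarith
  rw [h2']
  nlinarith

/-- arithmetic of the first case -/
theorem ar1 {P Q f0 f1 g0 g1 : ℤ} (hf : f0 ≤ P) (hg : g0 ≤ Q) (hf' : P ≤ f0 + f1)
    (hg' : Q ≤ g0 + g1) :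
    f0 * g0 + (f0 * g1 + f1 * g0 - f1 * g1) ≤
      2 * (P * Q) - (2 * P - (f0 + f1)) * (2 * Q - (g0 + g1)) := by
  have h1 : (f0 + f1 - P) * (g0 + g1 - Q) ≤ f1 * g1 :=
    mul_le_mul (by linarith) (by linarith) (by linarith) (by linarith)
  nlinarith

theorem ar2a {P Q f0 f1 g0 g1 X B Y : ℤ} (hX : X ≤ P * Q - (2 * P - f0) * (Q - g0))
    (hB : B ≤ P * Q - (2 * P - f0) * (Q - g1)) (hY : Y + f1 * g1 ≤ B + f1 * g0)
    (hf1 : 0 ≤ f1) (hg : g0 ≤ Q) :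
    X + Y ≤ 2 * (P * Q) - (2 * P - (f0 + f1)) * (2 * Q - (g0 + g1)) := by
  have h1 : 0 ≤ f1 * (Q - g0) := mul_nonneg hf1 (by linarith)
  nlinarith

theorem ar2b {P Q f0 f1 g0 g1 X B Y : ℤ} (hX : X ≤ P * Q - (2 * P - f0) * (Q - g0))
    (hB : B ≤ f0 * g1) (hY : Y + f1 * g1 ≤ B + f1 * g0)
    (hf1 : 0 ≤ f1) (hg : g0 ≤ Q) (hf : P ≤ f0) (hg1 : 2 * g1 ≤ Q) :
    X + Y ≤ 2 * (P * Q) - (2 * P - (f0 + f1)) * (2 * Q - (g0 + g1)) := by
  have h1 : 0 ≤ f1 * (Q - g0) := mul_nonneg hf1 (by linarith)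
  have h2 : 0 ≤ (f0 - P) * (Q - 2 * g1) := mul_nonneg (by linarith) (by linarith)
  nlinarith

/-- the fibre estimate of the third case, in both subcases -/
theorem ar3a {P Q f0 f1 g0 K : ℤ} (hK : (P - f1) * (2 * Q - g0) ≤ K) (hf0 : P ≤ f0)
    (hf1 : 0 ≤ f1) (hf : f0 + f1 ≤ 2 * P) (hg : g0 ≤ 2 * Q) :
    P * ((2 * P - (f0 + f1)) * (2 * Q - g0)) ≤ K * (2 * P - f0) := by
  have h1 : (P - f1) * (2 * Q - g0) * (2 * P - f0) ≤ K * (2 * P - f0) :=
    mul_le_mul_of_nonneg_right hK (by linarith)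
  have h2 : 0 ≤ f1 * (f0 - P) * (2 * Q - g0) :=
    mul_nonneg (mul_nonneg hf1 (by linarith)) (by linarith)
  nlinarith

theorem ar3b {P Q f0 f1 g0 K : ℤ} (hK : P * Q - f1 * g0 ≤ K) (hf0 : P ≤ f0)
    (hf1 : 0 ≤ f1) (hf : f0 + f1 ≤ 2 * P) (hg : g0 ≤ 2 * Q) (hgQ : Q ≤ g0) (h2 : 2 * f1 ≤ P) :
    P * ((2 * P - (f0 + f1)) * (2 * Q - g0)) ≤ K * (2 * P - f0) := by
  have h1 : (P * Q - f1 * g0) * (2 * P - f0) ≤ K * (2 * P - f0) :=
    mul_le_mul_of_nonneg_right hK (by linarith)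
  have h3 : 0 ≤ (P - 2 * f1) * (2 * P - f0) * (g0 - Q) :=
    mul_nonneg (mul_nonneg (by linarith) (by linarith)) (by linarith)
  have h4 : 0 ≤ f1 * (f0 - P) * (2 * Q - g0) :=
    mul_nonneg (mul_nonneg hf1 (by linarith)) (by linarith)
  nlinarith

theorem ar3 {P Q f0 f1 g0 g1 K L Z : ℤ} (hP : 0 < P) (hQ : 0 < Q)
    (hK : P * ((2 * P - (f0 + f1)) * (2 * Q - g0)) ≤ K * (2 * P - f0))
    (hL : Q * ((2 * Q - (g0 + g1)) * (2 * P - f0)) ≤ L * (2 * Q - g0))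
    (hK0 : 0 ≤ K) (hf : f0 + f1 ≤ 2 * P) (hg : g0 + g1 ≤ 2 * Q)
    (hf1 : 0 ≤ f1) (hg1 : 0 ≤ g1) (hZ0 : 0 ≤ Z)
    (hZ : K * L ≤ (P * Q) * Z) :
    (2 * P - (f0 + f1)) * (2 * Q - (g0 + g1)) ≤ Z := by
  rcases (show f0 + f1 = 2 * P ∨ f0 + f1 < 2 * P from hf.eq_or_lt) with h | h
  · rw [h]; simpa using hZ0
  rcases (show g0 + g1 = 2 * Q ∨ g0 + g1 < 2 * Q from hg.eq_or_lt) with h' | h'
  · rw [h']; simpa using hZ0
  have hA : 0 < 2 * P - f0 := by linarith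
  have hB : 0 < 2 * Q - g0 := by linarith
  have h1 : (P * ((2 * P - (f0 + f1)) * (2 * Q - g0))) * (Q * ((2 * Q - (g0 + g1)) * (2 * P - f0)))
      ≤ (K * (2 * P - f0)) * (L * (2 * Q - g0)) := by
    refine mul_le_mul hK hL ?_ (mul_nonneg hK0 hA.le)
    exact mul_nonneg hQ.le (mul_nonneg (by linarith) hA.le)
  have h2 : ((2 * P - (f0 + f1)) * (2 * Q - (g0 + g1))) * ((P * Q) * ((2 * P - f0) * (2 * Q - g0)))
      ≤ Z * ((P * Q) * ((2 * P - f0) * (2 * Q - g0))) := by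
    have h3 : (K * L) * ((2 * P - f0) * (2 * Q - g0)) ≤
        ((P * Q) * Z) * ((2 * P - f0) * (2 * Q - g0)) :=
      mul_le_mul_of_nonneg_right hZ (mul_nonneg hA.le hB.le)
    calc _ = (P * ((2 * P - (f0 + f1)) * (2 * Q - g0))) *
          (Q * ((2 * Q - (g0 + g1)) * (2 * P - f0))) := by ring
      _ ≤ _ := h1
      _ = (K * L) * ((2 * P - f0) * (2 * Q - g0)) := by ring
      _ ≤ _ := h3
      _ = _ := by ring
  exact le_of_mul_le_mul_right h2 (mul_pos (mul_pos hP hQ) (mul_pos hA hB))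

/-- The statement proved by induction on the ground set. -/
def Key (s : Finset α) : Prop :=
  ∀ (a b : ℕ) (F G : Finset (Finset α)), #s = a + b + 1 →
    IsLowerSet (F : Set (Finset α)) → IsLowerSet (G : Set (Finset α)) →
    (∀ A ∈ F, A ⊆ s) → (∀ B ∈ G, B ⊆ s) → 2 ^ a ≤ #F → #F ≤ 2 ^ (a + 1) →
    2 ^ b ≤ #G → #G ≤ 2 ^ (b + 1) →
    (#(F ⊻ G) : ℤ) ≤ 2 ^ (a + b + 1) - (2 ^ (a + 1) - #F) * (2 ^ (b + 1) - #G)

theorem case2 {s : Finset α} (ih : Key s) {a b : ℕ} {F0 F1 G0 G1 : Finset (Finset α)}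
    (hs : #s = a + b + 2) (lF0 : IsLowerSet (F0 : Set (Finset α)))
    (lG0 : IsLowerSet (G0 : Set (Finset α))) (lG1 : IsLowerSet (G1 : Set (Finset α)))
    (sF0 : ∀ A ∈ F0, A ⊆ s) (sG0 : ∀ A ∈ G0, A ⊆ s) (hF : F1 ⊆ F0) (hG : G1 ⊆ G0)
    (h1 : 2 ^ (a + 1) ≤ #F0) (h2 : #F0 + #F1 ≤ 2 * 2 ^ (a + 1)) (h3 : #G0 ≤ 2 ^ (b + 1))
    (h4 : 2 ^ (b + 1) ≤ #G0 + #G1) :
    (#(F0 ⊻ G0) : ℤ) + #((F1 ⊻ G0) ∪ (F0 ⊻ G1)) ≤
      2 * (2 ^ (a + 1) * 2 ^ (b + 1)) -
        (2 * 2 ^ (a + 1) - (#F0 + #F1)) * (2 * 2 ^ (b + 1) - (#G0 + #G1)) := by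
  have hg10 : #G1 ≤ #G0 := card_le_card hG
  have hq : 2 ^ (b + 1) = 2 * 2 ^ b := by rw [pow_succ, mul_comm]
  have hp2 : 2 ^ (a + 1 + 1) = 2 * 2 ^ (a + 1) := by rw [pow_succ 2 (a + 1), mul_comm]
  have hX := ih (a + 1) b F0 G0 (by omega) lF0 lG0 sF0 sG0 h1 (by omega) (by omega) h3
  have e1 : (2 : ℤ) ^ (a + 1 + b + 1) = 2 ^ (a + 1) * 2 ^ (b + 1) := by ring
  have e2 : (2 : ℤ) ^ (a + 1 + 1) = 2 * 2 ^ (a + 1) := by ring
  rw [e1, e2] at hX
  have hY := up1 hF hG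
  have hY' : (#((F1 ⊻ G0) ∪ (F0 ⊻ G1)) : ℤ) + #F1 * #G1 ≤ #(F0 ⊻ G1) + #F1 * #G0 := by
    exact_mod_cast hY
  have hg0 : (#G0 : ℤ) ≤ 2 ^ (b + 1) := by exact_mod_cast h3
  have hf0 : (2 : ℤ) ^ (a + 1) ≤ #F0 := by exact_mod_cast h1
  by_cases hc : 2 ^ b ≤ #G1
  · have hB := ih (a + 1) b F0 G1 (by omega) lF0 lG1 sF0 (fun A hA => sG0 A (hG hA)) h1
      (by omega) hc (by omega)
    rw [e1, e2] at hB
    exact ar2a hX hB hY' (by positivity) hg0
  · have hB : (#(F0 ⊻ G1) : ℤ) ≤ #F0 * #G1 := by exact_mod_cast card_sups_le F0 G1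
    have hc' : 2 * #G1 ≤ 2 ^ (b + 1) := by omega
    exact ar2b hX hB hY' (by positivity) hg0 hf0 (by exact_mod_cast hc')

/-- the lower bound for the complement of `F1 ⊻ G0` in the third case -/
theorem case3a {s : Finset α} (ih : Key s) {a b : ℕ} {F0 F1 G0 : Finset (Finset α)}
    (hs : #s = a + b + 2) (lF1 : IsLowerSet (F1 : Set (Finset α)))
    (lG0 : IsLowerSet (G0 : Set (Finset α))) (sF1 : ∀ A ∈ F1, A ⊆ s) (sG0 : ∀ A ∈ G0, A ⊆ s)
    (h1 : 2 ^ (a + 1) ≤ #F0) (h2 : #F0 + #F1 ≤ 2 * 2 ^ (a + 1)) (h3 : 2 ^ (b + 1) ≤ #G0)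
    (h4 : #G0 ≤ 2 * 2 ^ (b + 1)) :
    (2 : ℤ) ^ (a + 1) * ((2 * 2 ^ (a + 1) - (#F0 + #F1)) * (2 * 2 ^ (b + 1) - #G0)) ≤
      (2 ^ (a + 1) * 2 ^ (b + 1) - #(F1 ⊻ G0)) * (2 * 2 ^ (a + 1) - #F0) := by
  have hp : 2 ^ (a + 1) = 2 * 2 ^ a := by rw [pow_succ, mul_comm]
  have hq2 : 2 ^ (b + 1 + 1) = 2 * 2 ^ (b + 1) := by rw [pow_succ 2 (b + 1), mul_comm]
  have z1 : (2 : ℤ) ^ (a + 1) ≤ #F0 := by exact_mod_cast h1
  have z2 : (#F0 : ℤ) + #F1 ≤ 2 * 2 ^ (a + 1) := by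
    exact_mod_cast h2
  have z3 : (2 : ℤ) ^ (b + 1) ≤ #G0 := by exact_mod_cast h3
  have z4 : (#G0 : ℤ) ≤ 2 * 2 ^ (b + 1) := by exact_mod_cast h4
  by_cases hc : 2 ^ a ≤ #F1
  · have hA := ih a (b + 1) F1 G0 (by omega) lF1 lG0 sF1 sG0 hc (by omega) h3 (by omega)
    have e1 : (2 : ℤ) ^ (a + (b + 1) + 1) = 2 ^ (a + 1) * 2 ^ (b + 1) := by ring
    have e2 : (2 : ℤ) ^ (b + 1 + 1) = 2 * 2 ^ (b + 1) := by ring
    rw [e1, e2] at hA
    exact ar3a (by linarith) z1 (by positivity) z2 z4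
  · have hA : (#(F1 ⊻ G0) : ℤ) ≤ #F1 * #G0 := by exact_mod_cast card_sups_le F1 G0
    have hc' : 2 * #F1 ≤ 2 ^ (a + 1) := by omega
    exact ar3b (by linarith) z1 (by positivity) z2 z4 z3 (by exact_mod_cast hc')

theorem key (s : Finset α) : Key s := by
  induction s using Finset.induction_on with
  | empty =>
    intro a b F G h
    simp at h
  | insert x s hx ih =>
    intro a b F G hs hF hG hFs hGs hF1 hF2 hG1 hG2
    have hs' : #s = a + b := by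
      rw [card_insert_of_notMem hx] at hs
      omega
    have hprod : (#(F ⊻ G) : ℤ) ≤ #F * #G := by exact_mod_cast card_sups_le F G
    have htriv : (#(F ⊻ G) : ℤ) ≤ 2 ^ (a + b + 1) := by
      have h := card_le_two_pow (sups_sub hFs hGs)
      rw [hs] at h
      exact_mod_cast h
    rcases Nat.eq_zero_or_pos b with hb | hb
    · subst hb
      have : #G = 1 ∨ #G = 2 := by
        simp only [pow_zero, zero_add, pow_one] at hG1 hG2
        omega
      rcases this with h | h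
      · rw [h] at hprod ⊢
        push_cast at hprod ⊢
        have : (2 : ℤ) ^ (a + 0 + 1) = 2 ^ (a + 1) := by simp
        rw [this]
        norm_num
        linarith
      · rw [h]
        norm_num
        simpa using htriv
    rcases Nat.eq_zero_or_pos a with ha | ha
    · subst ha
      have : #F = 1 ∨ #F = 2 := by
        simp only [pow_zero, zero_add, pow_one] at hF1 hF2
        omega
      rcases this with h | h
      · rw [h] at hprod ⊢
        push_cast at hprod ⊢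
        have : (2 : ℤ) ^ (0 + b + 1) = 2 ^ (b + 1) := by simp
        rw [this]
        norm_num
        linarith
      · rw [h]
        norm_num
        simpa using htriv
    obtain ⟨a, rfl⟩ : ∃ c, a = c + 1 := ⟨a - 1, by omega⟩
    obtain ⟨b, rfl⟩ : ∃ c, b = c + 1 := ⟨b - 1, by omega⟩
    have hsplit := split_card x hF hG
    have cF := card_memberSubfamily_add_card_nonMemberSubfamily x F
    have cG := card_memberSubfamily_add_card_nonMemberSubfamily x G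
    have lF0 := hF.nonMemberSubfamily (a := x)
    have lF1 := hF.memberSubfamily (a := x)
    have lG0 := hG.nonMemberSubfamily (a := x)
    have lG1 := hG.memberSubfamily (a := x)
    have sF := hF.memberSubfamily_subset_nonMemberSubfamily (a := x)
    have sG := hG.memberSubfamily_subset_nonMemberSubfamily (a := x)
    have tF0 : ∀ A ∈ F.nonMemberSubfamily x, A ⊆ s := fun A hA => by
      rw [mem_nonMemberSubfamily] at hA
      exact (subset_insert_iff_of_notMem hA.2).1 (hFs A hA.1)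
    have tG0 : ∀ A ∈ G.nonMemberSubfamily x, A ⊆ s := fun A hA => by
      rw [mem_nonMemberSubfamily] at hA
      exact (subset_insert_iff_of_notMem hA.2).1 (hGs A hA.1)
    generalize F.nonMemberSubfamily x = F0 at *
    generalize F.memberSubfamily x = F1 at *
    generalize G.nonMemberSubfamily x = G0 at *
    generalize G.memberSubfamily x = G1 at *
    have tF1 : ∀ A ∈ F1, A ⊆ s := fun A hA => tF0 A (sF hA)
    have tG1 : ∀ A ∈ G1, A ⊆ s := fun A hA => tG0 A (sG hA)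
    have hf10 : #F1 ≤ #F0 := card_le_card sF
    have hg10 : #G1 ≤ #G0 := card_le_card sG
    have zF : (#F : ℤ) = #F0 + #F1 := by rw [← cF]; push_cast; ring
    have zG : (#G : ℤ) = #G0 + #G1 := by rw [← cG]; push_cast; ring
    have zs : (#(F ⊻ G) : ℤ) ≤ #(F0 ⊻ G0) + #((F1 ⊻ G0) ∪ (F0 ⊻ G1)) := by
      exact_mod_cast hsplit
    have e0 : (2 : ℤ) ^ (a + 1 + (b + 1) + 1) = 2 * (2 ^ (a + 1) * 2 ^ (b + 1)) := by ring
    have e1 : (2 : ℤ) ^ (a + 1 + 1) = 2 * 2 ^ (a + 1) := by ring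
    have e2 : (2 : ℤ) ^ (b + 1 + 1) = 2 * 2 ^ (b + 1) := by ring
    rw [e0, e1, e2, zF, zG]
    refine zs.trans ?_
    have hp2 : 2 ^ (a + 1 + 1) = 2 * 2 ^ (a + 1) := by rw [pow_succ 2 (a + 1), mul_comm]
    have hq2 : 2 ^ (b + 1 + 1) = 2 * 2 ^ (b + 1) := by rw [pow_succ 2 (b + 1), mul_comm]
    rcases le_total (#F0) (2 ^ (a + 1)) with hA | hA <;>
      rcases le_total (#G0) (2 ^ (b + 1)) with hB | hB
    · -- both small
      have hX : (#(F0 ⊻ G0) : ℤ) ≤ #F0 * #G0 := by exact_mod_cast card_sups_le F0 G0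
      have hY := up1 sF sG
      have hY' : (#((F1 ⊻ G0) ∪ (F0 ⊻ G1)) : ℤ) + #F1 * #G1 ≤ #(F0 ⊻ G1) + #F1 * #G0 := by
        exact_mod_cast hY
      have hZ : (#(F0 ⊻ G1) : ℤ) ≤ #F0 * #G1 := by exact_mod_cast card_sups_le F0 G1
      have := ar1 (P := 2 ^ (a + 1)) (Q := 2 ^ (b + 1)) (f0 := #F0) (f1 := #F1) (g0 := #G0)
        (g1 := #G1) (by exact_mod_cast hA) (by exact_mod_cast hB)
        (by rw [← zF]; exact_mod_cast hF1) (by rw [← zG]; exact_mod_cast hG1)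
      linarith
    · -- F0 small, G0 large
      have h := case2 ih (a := b) (b := a) (F0 := G0) (F1 := G1) (G0 := F0) (G1 := F1)
        (by omega) lG0 lF0 lF1 tG0 tF0 sG sF hB (by omega) hA (by omega)
      rw [sups_comm G0 F0, sups_comm G1 F0, sups_comm G0 F1, union_comm] at h
      linarith
    · exact case2 ih (by omega) lF0 lG0 lG1 tF0 tG0 sF sG hA (by omega) hB (by omega)
    · -- both large
      have hK := case3a ih (a := a) (b := b) (F0 := F0) (F1 := F1) (G0 := G0) (by omega) lF1 lG0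
        tF1 tG0 hA (by omega) hB (by omega)
      have hL := case3a ih (a := b) (b := a) (F0 := G0) (F1 := G1) (G0 := F0) (by omega) lG1 lF0
        tG1 tF0 hB (by omega) hA (by omega)
      rw [sups_comm G1 F0, mul_comm ((2 : ℤ) ^ (b + 1)) (2 ^ (a + 1))] at hL
      have hkl := kleit (lower_sups lF1 lG0) (lower_sups lF0 lG1) (sups_sub tF1 tG0)
        (sups_sub tF0 tG1)
      have es : (2 : ℤ) ^ #s = 2 ^ (a + 1) * 2 ^ (b + 1) := by rw [hs']; ring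
      rw [es] at hkl
      have hX : (#(F0 ⊻ G0) : ℤ) ≤ 2 ^ (a + 1) * 2 ^ (b + 1) := by
        have h := card_le_two_pow (sups_sub tF0 tG0)
        rw [← es]; exact_mod_cast h
      have hK0 : (#(F1 ⊻ G0) : ℤ) ≤ 2 ^ (a + 1) * 2 ^ (b + 1) := by
        have h := card_le_two_pow (sups_sub tF1 tG0)
        rw [← es]; exact_mod_cast h
      have hZ0 : (#((F1 ⊻ G0) ∪ (F0 ⊻ G1)) : ℤ) ≤ 2 ^ (a + 1) * 2 ^ (b + 1) := by
        have h := card_le_two_pow (s := s) (F := (F1 ⊻ G0) ∪ (F0 ⊻ G1)) (by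
          intro A hA
          rw [mem_union] at hA
          exact hA.elim (sups_sub tF1 tG0 A) (sups_sub tF0 tG1 A))
        rw [← es]; exact_mod_cast h
      have := ar3 (P := 2 ^ (a + 1)) (Q := 2 ^ (b + 1)) (f0 := #F0) (f1 := #F1) (g0 := #G0)
        (g1 := #G1) (by positivity) (by positivity) hK hL (by linarith)
        (by rw [← zF, ← e1]; exact_mod_cast hF2) (by rw [← zG, ← e2]; exact_mod_cast hG2)
        (by positivity) (by positivity) (by linarith) hkl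
      linarith

end Pool.Agent.D0H2.CS
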